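import Pool.Agent.helper60.XP.SpecT
import Pool.Agent.helper21.MP.HSM

/-! # Project xp: (MP_af9036_an): module STC (helper56): the start for one datum -/

set_option autoImplicit false

open Complex Metric Set Filter Topology MeasureTheory
open V3S (UF)
open XP

noncomputable section

namespace XPT

theorem STC_ofReal_sum {ι : Type} (s : Finset ι) (u : ι → ℝ) :
    ENNReal.ofReal (∑ i ∈ s, u i) ≤ ∑ i ∈ s, ENNReal.ofReal (u i) := by
  classical
  induction s using Finset.induction_on with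
  | empty => simp
  | insert a s ha ih =>
    rw [Finset.sum_insert ha, Finset.sum_insert ha]
    exact ENNReal.ofReal_add_le.trans (add_le_add le_rfl ih)

/-- Measurability of the pulled back densities. -/
theorem STC_meas (hMI : XPS.MIX_stmt) {f : Polynomial ℂ}
    {P : Set ℂ} {B : ℂ → ℂ} (hf : XPS.AD f P B) {G : ℂ → ℂ} {Ω : Set ℂ} (hΩ : IsOpen Ω)
    (hG : DifferentiableOn ℂ G Ω) :
    AEMeasurable (fun w => ENNReal.ofReal (XPS.dens f B G w)) (volume.restrict Ω) := by
  obtain ⟨-, -, her, hDf, -⟩ := hMI f P B hf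
  have hGm : AEMeasurable G (volume.restrict Ω) :=
    (hG.continuousOn.aestronglyMeasurable hΩ.measurableSet).aemeasurable
  have h1 : AEMeasurable (fun w => XPS.Df f B (G w)) (volume.restrict Ω) :=
    hDf.comp_aemeasurable hGm
  have h2 : AEMeasurable (fun w => XPS.er f B (G w)) (volume.restrict Ω) :=
    her.comp_aemeasurable hGm
  have h3 : Measurable (deriv G) := measurable_deriv G
  unfold XPS.dens
  exact ((h1.add (h2.norm.const_mul 2)).mul (h3.norm.pow_const 2).aemeasurable).ennreal_ofReal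

/-- telescoping -/
theorem STC_tel (B : ℂ → ℂ) (G : ℕ → ℂ → ℂ) (w : ℂ) (K : ℕ) :
    ‖XPS.tau B G 0 w - XPS.tau B G K w‖ ≤ ∑ q ∈ Finset.Icc 1 K, XPS.lev B G q w := by
  induction K with
  | zero => simp
  | succ K ih =>
    rw [Finset.sum_Icc_succ_top (by omega)]
    have h : XPS.tau B G 0 w - XPS.tau B G (K + 1) w =
        (XPS.tau B G 0 w - XPS.tau B G K w) + (XPS.tau B G K w - XPS.tau B G (K + 1) w) := by ring
    rw [h]
    refine (norm_add_le _ _).trans (add_le_add ih ?_)
    unfold XPS.lev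
    rw [Nat.add_sub_cancel]

theorem STC (hSTS : STS_stmt) (hENS : ENS_stmt) (hLVG : XPS.LVG_stmt) (hMAX : XPS.MAX_stmt)
    (hLEA : XPS.LEAX_stmt) (hMI : XPS.MIX_stmt) : STC_stmt := by
  intro n C A c CK D hG hD x₀ ρ r χ Ψ hSt
  obtain ⟨hLS, -, hinj, hmaps, hmult⟩ := hSTS n C A c CK D hG hD x₀ ρ r χ Ψ hSt
  obtain ⟨hEng, hE⟩ := hENS n C A D hG hSt.s0 hSt.s1
  set G := tw D Ψ χ with hGdef
  set Ω : Set ℂ := ball (0 : ℂ) (2 * r) with hΩ
  have hΩo : IsOpen Ω := isOpen_ball
  have hr : 0 < r := hSt.r0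
  have hE0 : 0 ≤ D.E := hG.eng.E0
  have had : XPS.AD D.f D.PP D.H := hEng.ad
  have hdeg : 1 ≤ D.f.natDegree := had.deg
  obtain ⟨-, -, htau, -, -⟩ := hLEA D.f D.PP D.H G Ω D.K had hΩo hLS
  -- total mass
  have hcond : ∀ q < D.K, IsOpen Ω ∧ DifferentiableOn ℂ (G q) Ω ∧ InjOn (G q) Ω ∧
      MapsTo (G q) Ω (ball 0 D.rad) :=
    fun q hq => ⟨hΩo, hLS.diff q hq.le, hinj q hq.le, hmaps q hq⟩
  obtain ⟨hM1, -⟩ := hMAX D.f D.PP D.H D.rad (D.s * D.E) had hE D.K D.N (fun _ => Ω) G hcond hmult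
  have hNE : (D.N : ENNReal) * ENNReal.ofReal (D.s * D.E) ≤ ENNReal.ofReal (D.N * D.E) := by
    rw [ENNReal.ofReal_mul (by positivity : (0 : ℝ) ≤ D.N), ENNReal.ofReal_natCast]
    refine mul_le_mul_right ?_ _
    refine ENNReal.ofReal_le_ofReal ?_
    have := mul_le_mul_of_nonneg_right hSt.s1 hE0
    linarith
  have hdens : ∫⁻ w in Ω, ENNReal.ofReal (∑ q ∈ Finset.range D.K, XPS.dens D.f D.H (G q) w) ≤
      ENNReal.ofReal (D.N * D.E) := by
    calc ∫⁻ w in Ω, ENNReal.ofReal (∑ q ∈ Finset.range D.K, XPS.dens D.f D.H (G q) w)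
        ≤ ∫⁻ w in Ω, ∑ q ∈ Finset.range D.K, ENNReal.ofReal (XPS.dens D.f D.H (G q) w) :=
          lintegral_mono fun w => STC_ofReal_sum _ _
      _ = ∑ q ∈ Finset.range D.K, ∫⁻ w in Ω, ENNReal.ofReal (XPS.dens D.f D.H (G q) w) := by
          refine lintegral_finset_sum' _ fun q hq => ?_
          exact STC_meas hMI had hΩo (hLS.diff q (Finset.mem_range.1 hq).le)
      _ ≤ (D.N : ENNReal) * ENNReal.ofReal (D.s * D.E) := hM1
      _ ≤ _ := hNE
  have htau0 : ∀ w ∈ Ω, XPS.tau D.H G 0 w = 1 := fun w hw => hLS.nat0.eq w hw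
  have hlv : ∀ w ∈ Ω, ∑ q ∈ Finset.Icc 1 D.K, XPS.lev D.H G q w ≤
      ∑ q ∈ Finset.range D.K, XPS.dens D.f D.H (G q) w + 1 - ‖XPS.tau D.H G D.K w‖ := by
    intro w hw
    have h := (hLVG D.f D.H G Ω D.K hdeg hΩo hLS.diff hLS.rel w hw).1
    rw [htau0 w hw, norm_one] at h
    exact h
  refine ⟨?_, ?_⟩
  · intro τ₀ hτ₀ w hw
    have hsub : ball w r ⊆ Ω := by
      intro z hz
      rw [hΩ, mem_ball_zero_iff]
      rw [mem_ball, dist_eq_norm] at hz
      rw [mem_ball_zero_iff] at hw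
      calc ‖z‖ = ‖(z - w) + w‖ := by rw [sub_add_cancel]
        _ ≤ ‖z - w‖ + ‖w‖ := norm_add_le _ _
        _ < 2 * r := by linarith
    -- mean value
    have hms : ENNReal.ofReal (Real.pi * r ^ 2 * ∑ q ∈ Finset.Icc 1 D.K, XPS.lev D.H G q w) ≤
        ∫⁻ z in ball w r, ENNReal.ofReal (∑ q ∈ Finset.Icc 1 D.K, XPS.lev D.H G q z) := by
      refine MPS.HSM ℕ (Finset.Icc 1 D.K)
        (fun q z => XPS.tau D.H G (q - 1) z - XPS.tau D.H G q z) w r hr ?_
      intro q hq
      rw [Finset.mem_Icc] at hq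
      exact ((htau (q - 1) (by omega)).mono hsub).sub ((htau q hq.2).mono hsub)
    have hlev0 : ∀ z, 0 ≤ ∑ q ∈ Finset.Icc 1 D.K, XPS.lev D.H G q z := fun z =>
      Finset.sum_nonneg fun q _ => norm_nonneg _
    set a : ℝ := max (-τ₀) 0 with ha
    set b : ℝ := max τ₀ 0 with hb
    have ha0 : 0 ≤ a := le_max_right _ _
    have hb0 : 0 ≤ b := le_max_right _ _
    have hab : b - a = τ₀ := by
      rcases le_total 0 τ₀ with h | h
      · have e1 : a = 0 := max_eq_right (by linarith)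
        have e2 : b = τ₀ := max_eq_left h
        rw [e1, e2, sub_zero]
      · have e1 : a = -τ₀ := max_eq_left (by linarith)
        have e2 : b = 0 := max_eq_right h
        rw [e1, e2]
        ring
    have hvol : volume (ball w r) = ENNReal.ofReal (Real.pi * r ^ 2) := by
      rw [Complex.volume_ball, ← ENNReal.ofReal_pow hr.le,
        ← ENNReal.ofReal_coe_nnreal, ← ENNReal.ofReal_mul (by positivity)]
      congr 1
      rw [mul_comm]
      rfl
    have key : ENNReal.ofReal (Real.pi * r ^ 2 * ∑ q ∈ Finset.Icc 1 D.K, XPS.lev D.H G q w) +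
        ENNReal.ofReal a * ENNReal.ofReal (Real.pi * r ^ 2) ≤
        ENNReal.ofReal (D.N * D.E) + ENNReal.ofReal b * ENNReal.ofReal (Real.pi * r ^ 2) := by
      calc _ ≤ (∫⁻ z in ball w r, ENNReal.ofReal (∑ q ∈ Finset.Icc 1 D.K, XPS.lev D.H G q z)) +
            ∫⁻ _ in ball w r, ENNReal.ofReal a := by
            rw [setLIntegral_const, hvol]
            exact add_le_add hms le_rfl
        _ ≤ ∫⁻ z in ball w r, (ENNReal.ofReal (∑ q ∈ Finset.Icc 1 D.K, XPS.lev D.H G q z) +
            ENNReal.ofReal a) := le_lintegral_add _ _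
        _ ≤ ∫⁻ z in ball w r, (ENNReal.ofReal (∑ q ∈ Finset.range D.K, XPS.dens D.f D.H (G q) z) +
            ENNReal.ofReal b) := by
            refine setLIntegral_mono' measurableSet_ball fun z hz => ?_
            have h1 := hlv z (hsub hz)
            have h2 := hτ₀ z (hsub hz)
            rw [← ENNReal.ofReal_add (hlev0 z) ha0]
            refine le_trans (ENNReal.ofReal_le_ofReal ?_) ENNReal.ofReal_add_le
            linarith
        _ = (∫⁻ z in ball w r,
              ENNReal.ofReal (∑ q ∈ Finset.range D.K, XPS.dens D.f D.H (G q) z)) +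
            ENNReal.ofReal b * ENNReal.ofReal (Real.pi * r ^ 2) := by
            rw [lintegral_add_right _ measurable_const, setLIntegral_const, hvol]
        _ ≤ _ := by
            refine add_le_add ?_ le_rfl
            exact (lintegral_mono_set hsub).trans hdens
    have hS := hlev0 w
    have hpi : 0 < Real.pi * r ^ 2 := by positivity
    have hNE0 : (0 : ℝ) ≤ D.N * D.E := by positivity
    rw [← ENNReal.ofReal_mul ha0, ← ENNReal.ofReal_mul hb0,
      ← ENNReal.ofReal_add (by positivity) (by positivity),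
      ← ENNReal.ofReal_add hNE0 (by positivity),
      ENNReal.ofReal_le_ofReal_iff (by positivity)] at key
    have h3 : Real.pi * r ^ 2 * ∑ q ∈ Finset.Icc 1 D.K, XPS.lev D.H G q w ≤
        D.N * D.E + τ₀ * (Real.pi * r ^ 2) := by
      rw [← hab]
      linarith
    have h4 : D.N * D.E / (Real.pi * r ^ 2) * (Real.pi * r ^ 2) = D.N * D.E :=
      div_mul_cancel₀ _ hpi.ne'
    by_contra hcon
    rw [not_le] at hcon
    have h5 := mul_lt_mul_of_pos_right hcon hpi
    rw [add_mul, h4] at h5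
    linarith
  · refine le_trans (setLIntegral_mono' hΩo.measurableSet fun z hz => ?_) hdens
    refine ENNReal.ofReal_le_ofReal ?_
    have h1 := hlv z hz
    have h2 := STC_tel D.H G z D.K
    rw [htau0 z hz] at h2
    linarith

end XPT
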